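import Mathlib
import Pool.Agent.Helper889.Nc.Tor

set_option autoImplicit false
set_option linter.unusedSectionVars false
set_option linter.unusedVariables false

namespace Pool.Agent.Y130.NP

open Pool.Agent.Helper889.Nc

theorem odd_case {p : ℕ} [NeZero p] {G : ZMod p → Type} [∀ s, Group (G s)] (c : ∀ s, Gd (G s)) (I : ZMod p → Type)
    [∀ s, Fintype (I s)] (L : ∀ s, Lvl (c s) (c (s + 1)) (I s)) (m : ℕ) (hm : Odd m)
    (hP : ∀ k < m, ∀ s, ∀ l : List (A × V), l.length = k → IsOfFinOrder (pp (c s) l)) (v : V)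
    (s' : ZMod p) (hs' : ∀ i : I s', (L s').chi i v = 1) :
    ∀ d : ℕ, ∀ s : ZMod p, s + (d : ZMod p) = s' → ∀ l : List (A × V), l.length = m →
      v ∈ l.map Prod.snd → IsOfFinOrder (pp (c s) l) := by
  intro d
  induction d with
  | zero =>
    intro s hs l hl hv
    have hs2 : s = s' := by simpa using hs
    subst hs2
    refine odd_step (L s) m hm (fun k hk => hP k hk s) v ?_ l hl hv
    intro i l' hl' _ h2
    rw [hs' i] at h2
    obtain ⟨p, hp, hp1⟩ := List.mem_map.mp h2
    exact fo_merge (c (s + 1)) m (fun k hk => hP k hk (s + 1)) l' hl' p hp (Or.inl hp1)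
  | succ d ih =>
    intro s hs l hl hv
    refine odd_step (L s) m hm (fun k hk => hP k hk s) v ?_ l hl hv
    intro i l' hl' h1 _
    refine ih (s + 1) ?_ l' hl' h1
    rw [← hs]
    push_cast
    ring

theorem all_fo {p : ℕ} [NeZero p] {G : ZMod p → Type} [∀ s, Group (G s)] (c : ∀ s, Gd (G s)) (I : ZMod p → Type)
    [∀ s, Fintype (I s)] (L : ∀ s, Lvl (c s) (c (s + 1)) (I s))
    (hforce : ∀ v : V, v ≠ 1 → ∃ s, ∀ i : I s, (L s).chi i v = 1) :
    ∀ m : ℕ, ∀ s, ∀ l : List (A × V), l.length = m → IsOfFinOrder (pp (c s) l) := by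
  intro m
  induction m using Nat.strong_induction_on with
  | _ m hP =>
  intro s l hl
  by_cases hbad : ∃ p ∈ l, p.1 = 1 ∨ p.2 = 1
  · obtain ⟨p, hp, h⟩ := hbad
    exact fo_merge (c s) m (fun k hk => hP k hk s) l hl p hp h
  push Not at hbad
  rcases Nat.even_or_odd m with hm | hm
  · rcases Nat.eq_zero_or_pos m with h0 | h0
    · have : l = [] := List.length_eq_zero_iff.mp (by omega)
      rw [this, pp_nil]
      exact IsOfFinOrder.one
    · rw [pp_eq_pt l (fun p hp => (A_cases p.1).resolve_left (hbad p hp).1)]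
      have hev : Even (l.map Prod.snd).length := by rw [List.length_map, hl]; exact hm
      apply fo_even (L s) _ hev
      · intro i
        obtain ⟨g1, g2, g3⟩ := c1_spec ((L s).chi i) _ hev
        rw [List.length_map] at g3
        exact hP _ (by omega) (s + 1) _ rfl
      · intro i
        obtain ⟨g1, g2, g3⟩ := c2_spec ((L s).chi i) _ hev
        rw [List.length_map] at g3
        exact hP _ (by omega) (s + 1) _ rfl
  · have hne : l ≠ [] := by
      rintro rfl
      simp at hl
      subst hl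
      simp at hm
    obtain ⟨p, hp⟩ := List.exists_mem_of_ne_nil l hne
    obtain ⟨s', hs'⟩ := hforce p.2 (hbad p hp).2
    refine odd_case c I L m hm hP p.2 s' hs' (s' - s).val s ?_ l hl (List.mem_map_of_mem hp)
    rw [ZMod.natCast_zmod_val]
    ring

/-- TARGET: the groups of the family are torsion groups -/
theorem family_torsion {p : ℕ} [NeZero p] {G : ZMod p → Type} [∀ s, Group (G s)] (c : ∀ s, Gd (G s)) (I : ZMod p → Type) [∀ s, Fintype (I s)]
    (L : ∀ s, Lvl (c s) (c (s + 1)) (I s)) (hforce : ∀ v : V, v ≠ 1 → ∃ s, ∀ i : I s, (L s).chi i v = 1)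
    (s : ZMod p) (g : G s) : ∃ n, 0 < n ∧ g ^ n = 1 := by
  obtain ⟨l, rfl⟩ := exists_pp (c s) g
  have := all_fo c I L hforce l.length s l rfl
  rw [isOfFinOrder_iff_pow_eq_one] at this
  exact this

end Pool.Agent.Y130.NP
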