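import Mathlib
import Pool.Agent.Helper889.Nc.Main
import Pool.Agent.Y130.NP.Tor

set_option autoImplicit false
set_option linter.unusedSectionVars false
set_option linter.unusedVariables false

open Filter Topology
open Pool.Agent.Helper889.Na hiding A

namespace Pool.Agent.Y130.NP

open Pool.Agent.Helper889.Nc hiding family_torsion family_infinite

section family

variable {p : ℕ} [NeZero p] {G : ZMod p → Type} [∀ s, Group (G s)] (c : ∀ s, Gd (G s)) (I : ZMod p → Type) [∀ s, Fintype (I s)]
    [∀ s, DecidableEq (I s)] (L : ∀ s, Lvl (c s) (c (s + 1)) (I s))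

include L in
theorem family_infinite (hne : ∀ s, Nonempty (I s)) (s : ZMod p) : Infinite (G s) := by
  by_contra hcon
  have hfin0 : Finite (G s) := not_infinite_iff_finite.mp hcon
  have hstep : ∀ t, Finite (G t) → Finite (G (t + 1)) := by
    intro t ht
    haveI : Finite (L t).W := Finite.of_injective _ (L t).P_inj
    obtain ⟨i⟩ := hne t
    exact Finite.of_surjective (fun w : (L t).W => w.1 (i, 1)) (fun g => (L t).proj_surj (i, 1) g)
  have hall : ∀ n : ℕ, Finite (G (s + n)) := by
    intro n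
    induction n with
    | zero => simpa using hfin0
    | succ n ih =>
      have := hstep _ ih
      rw [show s + ((n + 1 : ℕ) : ZMod p) = s + n + 1 by push_cast; ring]
      exact this
  have hfin : ∀ t, Finite (G t) := by
    intro t
    have := hall (t - s).val
    rw [ZMod.natCast_val, ZMod.cast_id', id, add_sub_cancel] at this
    exact this
  have hcard : ∀ t, 2 * Nat.card (G (t + 1)) ≤ Nat.card (G t) := by
    intro t
    haveI := hfin t
    haveI := hfin (t + 1)
    haveI : Finite (L t).W := Finite.of_injective _ (L t).P_inj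
    obtain ⟨i⟩ := hne t
    have h1 : Nat.card (G (t + 1)) ≤ Nat.card (L t).W :=
      Nat.card_le_card_of_surjective (fun w : (L t).W => w.1 (i, 1)) (fun g => (L t).proj_surj (i, 1) g)
    have h2 : Nat.card (A × (L t).W) ≤ Nat.card (G t) := by
      refine Nat.card_le_card_of_injective (fun p : A × (L t).W => (c t).iA p.1 * (L t).P p.2) ?_
      intro p q h
      obtain ⟨r, _, hr⟩ := (L t).uniq ((c t).iA p.1 * (L t).P p.2)
      rw [hr p rfl, hr q h]
    rw [Nat.card_prod] at h2
    have h3 : Nat.card A = 2 := by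
      rw [Nat.card_eq_fintype_card]
      simp [A]
    rw [h3] at h2
    omega
  have hsum : 2 * ∑ t : ZMod p, Nat.card (G (t + 1)) ≤ ∑ t : ZMod p, Nat.card (G t) := by
    rw [Finset.mul_sum]
    exact Finset.sum_le_sum fun t _ => hcard t
  have heq : ∑ t : ZMod p, Nat.card (G (t + 1)) = ∑ t : ZMod p, Nat.card (G t) :=
    Equiv.sum_comp (Equiv.addRight (1 : ZMod p)) fun t => Nat.card (G t)
  have hpos : 0 < ∑ t : ZMod p, Nat.card (G t) := by
    haveI := hfin s
    have h1 : 0 < Nat.card (G s) := Nat.card_pos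
    exact lt_of_lt_of_le h1 (Finset.single_le_sum (f := fun t => Nat.card (G t)) (fun _ _ => Nat.zero_le _) (Finset.mem_univ s))
  omega

theorem family_no_means
    (hforce : ∀ v : V, v ≠ 1 → ∃ s, ∀ i : I s, (L s).chi i v = 1)
    (hcard : 4 ^ p < ∏ s : ZMod p, (2 * Fintype.card (I s)))
    (m : ∀ s, Set (G s) → ℝ) (hm0 : ∀ s E, 0 ≤ m s E) (hm1 : ∀ s, m s Set.univ = 1)
    (hadd : ∀ s E F, Disjoint E F → m s (E ∪ F) = m s E + m s F)
    (hinv : ∀ s (g : G s) E, m s ((fun x => g * x) '' E) = m s E) : False := by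
  have htor := family_torsion c I L hforce
  have hpos : ∀ s, 0 < Fintype.card (I s) := by
    intro s
    rcases Nat.eq_zero_or_pos (Fintype.card (I s)) with h | h
    · exfalso
      have : ∏ s : ZMod p, (2 * Fintype.card (I s)) = 0 :=
        Finset.prod_eq_zero (Finset.mem_univ s) (by rw [h, mul_zero])
      have h4p : 0 < 4 ^ p := by positivity
      omega
    · exact h
  have hne : ∀ s, Nonempty (I s) := fun s => Fintype.card_pos_iff.mp (hpos s)
  have hinf := family_infinite c I L hne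
  have hWinf : ∀ s, Infinite (L s).W := by
    intro s
    obtain ⟨i⟩ := hne s
    haveI := hinf (s + 1)
    exact Infinite.of_surjective (fun w : (L s).W => w.1 (i, 1)) (fun g => (L s).proj_surj (i, 1) g)
  have hlow := fun s => (L s).low (hWinf s) (c (s + 1)).ball_finite (L s).closure_gW
  choose κ hκ hlow using hlow
  obtain ⟨κ₀, hκ₀, hκle⟩ : ∃ κ₀ : ℝ, 0 < κ₀ ∧ ∀ s, κ₀ ≤ κ s := by
    refine ⟨Finset.univ.inf' Finset.univ_nonempty κ, ?_, fun s => Finset.inf'_le _ (Finset.mem_univ s)⟩
    rw [Finset.lt_inf'_iff]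
    exact fun s _ => hκ s
  obtain ⟨R, v, ε, hε, hε0, hvF, hvE, hmin, hmin'⟩ := select
    (V := fun s => (L s).W →₀ ℝ)
    (fun s R => {v : (L s).W →₀ ℝ | N v = 1 ∧ ∀ w, v w ≠ 0 → ∀ x, w.1 x ∈ (c (s + 1)).ball R}) (fun s => (L s).EW)
    (fun s R R' h v hv => ⟨hv.1, fun w hw x => (c (s + 1)).ball_mono h (hv.2 w hw x)⟩)
    (fun s R => ⟨Finsupp.single 1 1, by
      constructor
      · simp [N, ip]
      · intro w hw x
        classical
        have : w = 1 := by
          by_contra h
          exact hw (by rw [Finsupp.single_apply, if_neg (Ne.symm h)])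
        rw [this]
        exact (c (s + 1)).one_mem_ball R⟩)
    (fun s => (L s).EW_nonneg) κ₀ hκ₀
    (fun s R v hv => by
      have := hlow s R v hv.2
      rw [hv.1, mul_one] at this
      refine le_trans ?_ this
      exact div_le_div_of_nonneg_right (hκle s) (by positivity))
    (fun s => (L s).small (m s) (hm0 s) (hm1 s) (hadd s) (hinv s))
  -- ratios
  have hratio : ∀ (lam : ℝ), 4 < lam → ∀ s, ∀ᶠ k in (hyperfilter ℕ : Filter ℕ),
      (2 * Fintype.card (I s) : ℝ) * ε (s + 1) k ≤ lam * ε s k := by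
    intro lam hlam s
    by_contra hcon
    have hcon' : ∀ᶠ k in (hyperfilter ℕ : Filter ℕ), ¬ ((2 * Fintype.card (I s) : ℝ) * ε (s + 1) k ≤ lam * ε s k) :=
      Ultrafilter.eventually_not.mpr hcon
    set X : ℝ := 2 * Fintype.card (I s) with hX
    have hXpos : 0 < X := by
      have : (0:ℝ) < Fintype.card (I s) := by exact_mod_cast hpos s
      positivity
    have hlevel := (L s).level_bound (htor (s + 1)) R (v s) (ε s) (hε s) (hε0 s) (fun k => (hvF s k).1)
      (fun k => (hvF s k).2) (hvE s) (fun k u hu => (L s).scale_up (fun u h1 h2 => hmin' s k u ⟨h1, h2⟩) u hu)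
      ((1 + lam / 4) / (2 * X)) ?_
    · rw [← hX] at hlevel
      have h1 : (1 + lam / 4) / (2 * X) * X = (1 + lam / 4) / 2 := by
        field_simp
      rw [h1] at hlevel
      linarith
    · intro m'
      have hk1 : Tendsto (fun k : ℕ => 1 / ((k:ℝ) + 1)) (hyperfilter ℕ : Filter ℕ) (𝓝 0) :=
        tendsto_one_div_add_atTop_nhds_zero_nat.mono_left Nat.hyperfilter_le_atTop
      have hε1 : Tendsto (ε (s + 1)) (hyperfilter ℕ : Filter ℕ) (𝓝 0) := (hε0 (s + 1)).mono_left Nat.hyperfilter_le_atTop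
      -- the limit of the constants
      have hlimc : Tendsto (fun k : ℕ => (1 - 1 / ((k:ℝ) + 1)) * lam / (X * (4 + ε (s + 1) k / 2)))
          (hyperfilter ℕ : Filter ℕ) (𝓝 ((1 - 0) * lam / (X * (4 + 0 / 2)))) := by
        refine Tendsto.div ((tendsto_const_nhds.sub hk1).mul_const _)
          ((tendsto_const_nhds.add (hε1.div_const 2)).const_mul _) ?_
        positivity
      have hlt : (1 + lam / 4) / (2 * X) < (1 - 0) * lam / (X * (4 + 0 / 2)) := by
        have e : (1 - 0) * lam / (X * (4 + 0 / 2)) = (lam / 2) / (2 * X) := by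
          field_simp
          ring
        rw [e]
        apply div_lt_div_of_pos_right _ (by positivity)
        linarith
      have hev := hlimc.eventually_const_lt hlt
      have hev2 : ∀ᶠ k : ℕ in (hyperfilter ℕ : Filter ℕ), m' ≤ k :=
        Nat.hyperfilter_le_atTop (eventually_ge_atTop m')
      filter_upwards [hev, hev2, hcon'] with k h1 h2 h3 ψ hψ
      have h3' : lam * ε s k < X * ε (s + 1) k := not_le.mp h3
      have hk0 : 0 ≤ 1 - 1 / ((k:ℝ) + 1) := by
        have : 1 / ((k:ℝ) + 1) ≤ 1 := by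
          rw [div_le_one (by positivity)]
          have : (0:ℝ) ≤ k := Nat.cast_nonneg k
          linarith
        linarith
      set e : ℝ := (1 - 1 / ((k:ℝ) + 1)) * ε (s + 1) k with he
      have he0 : 0 ≤ e := mul_nonneg hk0 (hε _ k).le
      have hele : e ≤ ε (s + 1) k := by
        have : 1 - 1 / ((k:ℝ) + 1) ≤ 1 := by
          have : 0 ≤ 1 / ((k:ℝ) + 1) := by positivity
          linarith
        calc e ≤ 1 * ε (s + 1) k := mul_le_mul_of_nonneg_right this (hε _ k).le
          _ = _ := one_mul _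
      have h4 := (L (s + 1)).ED_lower (R := R k + m') (e := e) he0 (fun u hu =>
        (L (s + 1)).scale_up (fun u h1 h2' => hmin' (s + 1) k u ⟨h1, fun w hw x =>
          (c (s + 1 + 1)).ball_mono (by omega) (h2' w hw x)⟩) u hu) ψ hψ
      -- combine
      have hN := N_nonneg ψ
      have hD : 0 < 4 + ε (s + 1) k / 2 := by have := hε (s + 1) k; linarith
      have hED0 : 0 ≤ (c (s + 1)).ED ψ := by
        unfold Gd.ED
        exact add_nonneg (div_nonneg (Finset.sum_nonneg fun _ _ => N_nonneg _) (by norm_num))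
          (div_nonneg (Finset.sum_nonneg fun _ _ => N_nonneg _) (by norm_num))
      have h5 : e * N ψ ≤ (4 + ε (s + 1) k / 2) * (c (s + 1)).ED ψ := by
        refine h4.trans (mul_le_mul_of_nonneg_right ?_ hED0)
        linarith
      have h6 : (1 + lam / 4) / (2 * X) * ε s k ≤ e / (4 + ε (s + 1) k / 2) := by
        rw [le_div_iff₀ hD]
        have h7 : (1 + lam / 4) / (2 * X) * (X * (4 + ε (s + 1) k / 2)) ≤ (1 - 1 / ((k:ℝ) + 1)) * lam := by
          have := h1.le
          rwa [le_div_iff₀ (by positivity)] at this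
        have h8 : (1 + lam / 4) / (2 * X) * (X * (4 + ε (s + 1) k / 2)) * ε s k ≤ (1 - 1 / ((k:ℝ) + 1)) * lam * ε s k :=
          mul_le_mul_of_nonneg_right h7 (hε s k).le
        have h9 : (1 - 1 / ((k:ℝ) + 1)) * (lam * ε s k) ≤ (1 - 1 / ((k:ℝ) + 1)) * (X * ε (s + 1) k) :=
          mul_le_mul_of_nonneg_left h3'.le hk0
        have h10 : X * ((1 + lam / 4) / (2 * X) * ε s k * (4 + ε (s + 1) k / 2)) ≤ X * e := by
          rw [he]
          nlinarith
        exact le_of_mul_le_mul_left h10 hXpos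
      calc (1 + lam / 4) / (2 * X) * ε s k * N ψ ≤ e / (4 + ε (s + 1) k / 2) * N ψ :=
            mul_le_mul_of_nonneg_right h6 hN
        _ = (e * N ψ) / (4 + ε (s + 1) k / 2) := by ring
        _ ≤ (c (s + 1)).ED ψ := by
            rw [div_le_iff₀ hD]
            linarith
  -- the product over the cycle
  obtain ⟨lam, hlam, hlam2⟩ : ∃ lam : ℝ, 4 < lam ∧ lam ^ p < 4 ^ p + 1 := by
    have hcont : Tendsto (fun x : ℝ => x ^ p) (𝓝[>] (4:ℝ)) (𝓝 ((4:ℝ) ^ p)) :=
      ((continuous_pow p).tendsto 4).mono_left nhdsWithin_le_nhds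
    have h1 := hcont.eventually_lt_const (lt_add_one ((4:ℝ) ^ p))
    have h2 : ∀ᶠ x in 𝓝[>] (4:ℝ), 4 < x := eventually_mem_nhdsWithin
    obtain ⟨x, hx⟩ := (h1.and h2).exists
    exact ⟨x, hx.2, hx.1⟩
  have hall := (Filter.eventually_all (ι := ZMod p)).mpr (hratio lam hlam)
  obtain ⟨k, hk⟩ := hall.exists
  have hprod : ∏ s : ZMod p, ((2 * Fintype.card (I s) : ℝ) * ε (s + 1) k) ≤ ∏ s : ZMod p, (lam * ε s k) :=
    Finset.prod_le_prod (fun s _ => mul_nonneg (by positivity) (hε _ k).le) fun s _ => hk s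
  have e1 : ∏ s : ZMod p, ((2 * Fintype.card (I s) : ℝ) * ε (s + 1) k) =
      (∏ s : ZMod p, (2 * Fintype.card (I s) : ℝ)) * ∏ s : ZMod p, ε (s + 1) k := Finset.prod_mul_distrib
  have e2 : ∏ s : ZMod p, (lam * ε s k) =
      (∏ s : ZMod p, lam) * ∏ s : ZMod p, ε s k := Finset.prod_mul_distrib
  rw [e1, e2] at hprod
  have heq : ∏ s : ZMod p, ε (s + 1) k = ∏ s : ZMod p, ε s k :=
    Equiv.prod_comp (Equiv.addRight (1 : ZMod p)) fun s => ε s k
  rw [heq] at hprod
  have hεpos : 0 < ∏ s : ZMod p, ε s k := Finset.prod_pos fun s _ => hε s k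
  have h1 := le_of_mul_le_mul_right hprod hεpos
  rw [Finset.prod_const, Finset.card_univ, ZMod.card] at h1
  have h2 : ((4 ^ p + 1 : ℕ) : ℝ) ≤ ((∏ s : ZMod p, (2 * Fintype.card (I s)) : ℕ) : ℝ) := by
    exact_mod_cast hcard
  push_cast at h2
  linarith

end family

end Pool.Agent.Y130.NP
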