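import Mathlib
import Pool.Agent.Helper889.Nc.Defs

set_option autoImplicit false
set_option linter.unusedSectionVars false
set_option linter.unusedVariables false

namespace Pool.Agent.Y130.NP

open Pool.Agent.Helper889.Nc

/-- a periodic pattern of finite sets of letters -/
class Pat (p : ℕ) where
  al : ZMod p → Finset (Fin 3)
  ne : ∀ s, (al s).Nonempty

variable {p : ℕ} [Pat p]

/-- the nontrivial element of `A` -/
def tt : A := Multiplicative.ofAdd 1

abbrev Lt := Fin 3 × A

/-- the letters of the pattern -/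
def allowed (s : ZMod p) (i : Fin 3) : Prop := i ∈ Pat.al s

instance (s : ZMod p) (i : Fin 3) : Decidable (allowed s i) := by unfold allowed; infer_instance

/-- the three homomorphisms `V → A` -/
def chi0 (i : Fin 3) : V →* A :=
  if i = 0 then MonoidHom.fst A A * MonoidHom.snd A A else if i = 1 then MonoidHom.fst A A else MonoidHom.snd A A

def rtF (s : ZMod p) (σ : A) : List Lt → List Lt
  | [] => []
  | x :: w => if allowed s x.1 then (x.1, σ * x.2) :: w else x :: w

def drF (v : V) : ZMod p → List Lt → List Lt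
  | _, [] => []
  | s, x :: w => if allowed s x.1 then (if x.2 = 1 then x :: drF v (s + 1) w else x :: rtF (s + 1) (chi0 x.1 v) w) else x :: w

theorem rtF_rtF (s : ZMod p) (σ τ : A) (w : List Lt) : rtF s σ (rtF s τ w) = rtF s (σ * τ) w := by
  cases w with
  | nil => rfl
  | cons x w =>
    by_cases h : allowed s x.1
    · simp [rtF, h, mul_assoc]
    · simp [rtF, h]

theorem rtF_one (s : ZMod p) (w : List Lt) : rtF s 1 w = w := by
  cases w <;> simp [rtF]

theorem drF_drF (v v' : V) (w : List Lt) : ∀ s : ZMod p, drF v s (drF v' s w) = drF (v * v') s w := by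
  induction w with
  | nil => intro s; rfl
  | cons x w ih =>
    intro s
    by_cases h : allowed s x.1
    · by_cases h1 : x.2 = 1
      · simp [drF, h, h1, ih]
      · simp only [drF, h, h1, if_true, if_false, rtF_rtF, map_mul]
    · simp [drF, h]

theorem drF_one (w : List Lt) : ∀ s : ZMod p, drF 1 s w = w := by
  induction w with
  | nil => intro s; rfl
  | cons x w ih =>
    intro s
    simp only [drF, ih, map_one, rtF_one]
    split_ifs <;> rfl

/-- rooted permutation -/
def rt (s : ZMod p) : A →* Equiv.Perm (List Lt) where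
  toFun σ := ⟨rtF s σ, rtF s σ⁻¹, fun w => by rw [rtF_rtF, inv_mul_cancel, rtF_one], fun w => by rw [rtF_rtF, mul_inv_cancel, rtF_one]⟩
  map_one' := by ext1 w; exact rtF_one s w
  map_mul' σ τ := by ext1 w; exact (rtF_rtF s σ τ w).symm

/-- directed permutation -/
def dr (s : ZMod p) : V →* Equiv.Perm (List Lt) where
  toFun v := ⟨drF v s, drF v⁻¹ s, fun w => by rw [drF_drF, inv_mul_cancel, drF_one], fun w => by rw [drF_drF, mul_inv_cancel, drF_one]⟩
  map_one' := by ext1 w; exact drF_one w s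
  map_mul' σ τ := by ext1 w; exact (drF_drF σ τ w s).symm

/-- the group at level `s` -/
def DD (s : ZMod p) : Subgroup (Equiv.Perm (List Lt)) := Subgroup.closure (Set.range (rt s) ∪ Set.range (dr s))

theorem rt_mem (s : ZMod p) (σ : A) : rt s σ ∈ DD s := Subgroup.subset_closure (Or.inl ⟨σ, rfl⟩)
theorem dr_mem (s : ZMod p) (v : V) : dr s v ∈ DD s := Subgroup.subset_closure (Or.inr ⟨v, rfl⟩)

/-- the letters used at level `s` -/
abbrev II (s : ZMod p) : Type := {i : Fin 3 // allowed s i}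

/-- TARGET 1 -/
theorem exists_gd (s : ZMod p) : ∃ c : Gd (DD s), (∀ σ, ((c.iA σ : DD s) : Equiv.Perm (List Lt)) = rt s σ) ∧
    (∀ v, ((c.iV v : DD s) : Equiv.Perm (List Lt)) = dr s v) := by
  refine ⟨{ iA := (rt s).codRestrict (DD s) (rt_mem s)
            iV := (dr s).codRestrict (DD s) (dr_mem s)
            gen := ?_ }, fun _ => rfl, fun _ => rfl⟩
  have h1 : (Set.range ((rt s).codRestrict (DD s) (rt_mem s)) ∪ Set.range ((dr s).codRestrict (DD s) (dr_mem s))) =
      (((↑) : DD s → Equiv.Perm (List Lt)) ⁻¹' (Set.range (rt s) ∪ Set.range (dr s))) := by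
    ext g
    constructor
    · rintro (⟨a, rfl⟩ | ⟨b, rfl⟩)
      · exact Or.inl ⟨a, rfl⟩
      · exact Or.inr ⟨b, rfl⟩
    · rintro (⟨a, ha⟩ | ⟨b, hb⟩)
      · exact Or.inl ⟨a, Subtype.ext ha⟩
      · exact Or.inr ⟨b, Subtype.ext hb⟩
  rw [h1]
  exact Subgroup.closure_closure_coe_preimage

/-- auxiliary function: direct power acting below the first level -/
def PFn (s : ZMod p) (u : II s × A → Equiv.Perm (List Lt)) : List Lt → List Lt
  | [] => []
  | x :: w => if h : allowed s x.1 then x :: u (⟨x.1, h⟩, x.2) w else x :: w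

theorem PFn_PFn (s : ZMod p) (u v : II s × A → Equiv.Perm (List Lt)) (w : List Lt) :
    PFn s u (PFn s v w) = PFn s (u * v) w := by
  cases w with
  | nil => rfl
  | cons x w =>
    by_cases h : allowed s x.1
    · simp [PFn, h]
    · simp [PFn, h]

theorem PFn_one (s : ZMod p) (w : List Lt) : PFn s 1 w = w := by
  cases w with
  | nil => rfl
  | cons x w =>
    by_cases h : allowed s x.1
    · simp [PFn, h]
    · simp [PFn, h]

/-- direct power acting below the first level -/
def PPn (s : ZMod p) : (II s × A → Equiv.Perm (List Lt)) →* Equiv.Perm (List Lt) where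
  toFun u := ⟨PFn s u, PFn s u⁻¹, fun w => by rw [PFn_PFn, inv_mul_cancel, PFn_one], fun w => by rw [PFn_PFn, mul_inv_cancel, PFn_one]⟩
  map_one' := by ext1 w; exact PFn_one s w
  map_mul' u v := by ext1 w; exact (PFn_PFn s u v w).symm

theorem PPn_apply (s : ZMod p) (u : II s × A → Equiv.Perm (List Lt)) (w : List Lt) : PPn s u w = PFn s u w := rfl
theorem rt_apply (s : ZMod p) (σ : A) (w : List Lt) : rt s σ w = rtF s σ w := rfl
theorem dr_apply (s : ZMod p) (v : V) (w : List Lt) : dr s v w = drF v s w := rfl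

theorem PPn_inj (s : ZMod p) : Function.Injective (PPn s) := by
  intro u v h
  funext x
  obtain ⟨⟨i, hi⟩, a⟩ := x
  ext1 l
  have h2 := congrArg (fun p : Equiv.Perm (List Lt) => p ((i, a) :: l)) h
  simp only [PPn_apply, PFn, dif_pos hi] at h2
  exact (List.cons.inj h2).2

theorem conj_PPn (s : ZMod p) (σ : A) (u : II s × A → Equiv.Perm (List Lt)) :
    rt s σ * PPn s u * (rt s σ)⁻¹ = PPn s (fun x => u (x.1, σ⁻¹ * x.2)) := by
  ext1 l
  rw [← map_inv, Equiv.Perm.mul_apply, Equiv.Perm.mul_apply, rt_apply, rt_apply, PPn_apply, PPn_apply]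
  cases l with
  | nil => rfl
  | cons x l =>
    by_cases h : allowed s x.1
    · simp [PFn, rtF, h]
    · simp [PFn, rtF, h]

theorem dr_eqn (s : ZMod p) (v : V) :
    dr s v = PPn s (fun x => if x.2 = 1 then dr (s + 1) v else rt (s + 1) (chi0 x.1.1 v)) := by
  ext1 l
  rw [dr_apply, PPn_apply]
  cases l with
  | nil => rfl
  | cons x l =>
    by_cases h : allowed s x.1
    · by_cases h1 : x.2 = 1
      · simp [PFn, drF, h, h1, dr_apply]
      · simp [PFn, drF, h, h1, rt_apply]
    · simp [PFn, drF, h]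

/-- the direct power of the group of sections -/
def QQ (s : ZMod p) : (II s × A → DD (s + 1)) →* Equiv.Perm (List Lt) where
  toFun u := PPn s (fun x => (u x : Equiv.Perm (List Lt)))
  map_one' := map_one (PPn s)
  map_mul' u v := map_mul (PPn s) (fun x => (u x : Equiv.Perm (List Lt))) (fun x => (v x : Equiv.Perm (List Lt)))

theorem QQ_apply (s : ZMod p) (u : II s × A → DD (s + 1)) :
    QQ s u = PPn s (fun x => (u x : Equiv.Perm (List Lt))) := rfl

theorem QQ_inj (s : ZMod p) : Function.Injective (QQ s) := by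
  intro u v h
  have h1 := PPn_inj s h
  funext x
  exact Subtype.ext (congrFun h1 x)

theorem conj_QQ (s : ZMod p) (σ : A) (u : II s × A → DD (s + 1)) :
    rt s σ * QQ s u * (rt s σ)⁻¹ = QQ s (fun x => u (x.1, σ⁻¹ * x.2)) := conj_PPn s σ _

theorem gW_QQ (s : ZMod p) (d : Gd (DD (s + 1))) (hd : ∀ σ, ((d.iA σ : DD (s + 1)) : Equiv.Perm (List Lt)) = rt (s + 1) σ)
    (hd' : ∀ v, ((d.iV v : DD (s + 1)) : Equiv.Perm (List Lt)) = dr (s + 1) v) (σ : A) (v : V) :
    QQ s (fun x : II s × A => if σ * x.2 = 1 then d.iV v else d.iA (chi0 x.1.1 v)) =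
      (rt s σ)⁻¹ * dr s v * rt s σ := by
  have h1 : (rt s σ)⁻¹ * dr s v * rt s σ = rt s σ⁻¹ * dr s v * (rt s σ⁻¹)⁻¹ := by
    rw [map_inv, inv_inv]
  rw [h1, dr_eqn, conj_PPn, QQ_apply]
  congr 1
  funext x
  simp only [inv_inv]
  by_cases h : σ * x.2 = 1
  · rw [if_pos h, if_pos h, hd']
  · rw [if_neg h, if_neg h, hd]

theorem dec_QQ (s : ZMod p) (g : Equiv.Perm (List Lt)) (hg : g ∈ DD s) :
    ∃ (σ : A) (u : II s × A → DD (s + 1)), g = rt s σ * QQ s u := by
  induction hg using Subgroup.closure_induction with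
  | mem g hg =>
    rcases hg with ⟨σ, rfl⟩ | ⟨b, rfl⟩
    · exact ⟨σ, 1, by rw [map_one, mul_one]⟩
    · refine ⟨1, fun x => if x.2 = 1 then ⟨dr (s + 1) b, dr_mem _ _⟩ else ⟨rt (s + 1) (chi0 x.1.1 b), rt_mem _ _⟩, ?_⟩
      rw [map_one, one_mul, QQ_apply, dr_eqn]
      congr 1
      funext x
      by_cases h : x.2 = 1
      · rw [if_pos h, if_pos h]
      · rw [if_neg h, if_neg h]
  | one => exact ⟨1, 1, by rw [map_one, map_one, mul_one]⟩
  | mul g h _ _ ihg ihh =>
    obtain ⟨σ, w, rfl⟩ := ihg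
    obtain ⟨τ, v, rfl⟩ := ihh
    refine ⟨σ * τ, (fun x => w (x.1, (τ⁻¹)⁻¹ * x.2)) * v, ?_⟩
    rw [map_mul (QQ s), ← conj_QQ s τ⁻¹ w, map_mul, map_inv]
    group
  | inv g _ ihg =>
    obtain ⟨σ, w, rfl⟩ := ihg
    refine ⟨σ⁻¹, fun x => w⁻¹ (x.1, σ⁻¹ * x.2), ?_⟩
    rw [← conj_QQ s σ w⁻¹, map_inv, map_inv]
    group

theorem dec_inj_QQ (s : ZMod p) (σ : A) (u : II s × A → DD (s + 1)) (h : rt s σ * QQ s u = 1) : σ = 1 := by
  obtain ⟨i, hi⟩ : ∃ i : Fin 3, allowed s i := Pat.ne s
  have h2 := congrArg (fun p : Equiv.Perm (List Lt) => p [(i, (1 : A))]) h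
  simp only [Equiv.Perm.mul_apply, QQ_apply, PPn_apply, rt_apply, PFn, dif_pos hi, rtF, if_pos hi,
    Equiv.Perm.one_apply] at h2
  have h3 := congrArg Prod.snd (List.cons.inj h2).1
  simpa using h3

/-- the kernel elements -/
def ker0 (i : Fin 3) : V := if i = 0 then (tt, tt) else if i = 1 then (1, tt) else (tt, 1)

theorem ker0_ne (i : Fin 3) : ker0 i ≠ 1 := by revert i; decide
theorem chi0_surj (i : Fin 3) : Function.Surjective (chi0 i) := by
  have h : ∀ i : Fin 3, ∀ a : A, ∃ v : V, chi0 i v = a := by decide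
  exact h i
theorem chi0_ker (i : Fin 3) : chi0 i (ker0 i) = 1 := by revert i; decide
theorem chi0_ker_ne (i j : Fin 3) (h : i ≠ j) : chi0 i (ker0 j) ≠ 1 := by revert i j; decide

/-- TARGET 2 -/
theorem exists_lvl (s : ZMod p) (c : Gd (DD s)) (hc : ∀ σ, ((c.iA σ : DD s) : Equiv.Perm (List Lt)) = rt s σ)
    (hc' : ∀ v, ((c.iV v : DD s) : Equiv.Perm (List Lt)) = dr s v)
    (d : Gd (DD (s + 1))) (hd : ∀ σ, ((d.iA σ : DD (s + 1)) : Equiv.Perm (List Lt)) = rt (s + 1) σ)
    (hd' : ∀ v, ((d.iV v : DD (s + 1)) : Equiv.Perm (List Lt)) = dr (s + 1) v) :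
    ∃ L : Lvl c d (II s), ∀ i, L.chi i = chi0 i.1 := by
  have hmem : ∀ (σ : A) (v : V), QQ s (fun x : II s × A => if σ * x.2 = 1 then d.iV v else d.iA (chi0 x.1.1 v)) ∈ DD s := by
    intro σ v
    rw [gW_QQ s d hd hd']
    exact (DD s).mul_mem ((DD s).mul_mem ((DD s).inv_mem (rt_mem s σ)) (dr_mem s v)) (rt_mem s σ)
  refine ⟨{ chi := fun i => chi0 i.1
            chi_surj := fun i => chi0_surj i.1
            ker := fun i => ker0 i.1
            ker_ne := fun i => ker0_ne i.1
            chi_ker := fun i => chi0_ker i.1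
            chi_ker_ne := fun i j hij => chi0_ker_ne i.1 j.1 (fun e => hij (Subtype.ext e))
            W := (DD s).comap (QQ s)
            P := { toFun := fun w => ⟨QQ s w.1, w.2⟩
                   map_one' := Subtype.ext (map_one (QQ s))
                   map_mul' := fun w v => Subtype.ext (map_mul (QQ s) w.1 v.1) }
            P_inj := ?_
            gW_mem := hmem
            P_gW := ?_
            conj := ?_
            dec := ?_
            dec_inj := ?_ }, fun _ => rfl⟩
  · intro w v h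
    exact Subtype.ext (QQ_inj s (congrArg Subtype.val h))
  · intro σ v
    apply Subtype.ext
    show QQ s _ = ((c.iA σ : DD s) : Equiv.Perm (List Lt))⁻¹ * ((c.iV v : DD s) : Equiv.Perm (List Lt)) * ((c.iA σ : DD s) : Equiv.Perm (List Lt))
    rw [hc, hc']
    exact gW_QQ s d hd hd' σ v
  · rintro σ ⟨w, hw⟩
    have h1 : QQ s (fun x => w (x.1, σ⁻¹ * x.2)) ∈ DD s := by
      rw [← conj_QQ]
      exact (DD s).mul_mem ((DD s).mul_mem (rt_mem s σ) hw) ((DD s).inv_mem (rt_mem s σ))
    refine ⟨⟨fun x => w (x.1, σ⁻¹ * x.2), h1⟩, fun x => rfl, ?_⟩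
    apply Subtype.ext
    show ((c.iA σ : DD s) : Equiv.Perm (List Lt)) * QQ s w * ((c.iA σ : DD s) : Equiv.Perm (List Lt))⁻¹ = QQ s _
    rw [hc]
    exact conj_QQ s σ w
  · rintro ⟨g, hg⟩
    obtain ⟨σ, u, h⟩ := dec_QQ s g hg
    have h1 : QQ s u ∈ DD s := by
      have h2 : QQ s u = (rt s σ)⁻¹ * g := by rw [h]; group
      rw [h2]
      exact (DD s).mul_mem ((DD s).inv_mem (rt_mem s σ)) hg
    refine ⟨σ, ⟨u, h1⟩, ?_⟩
    apply Subtype.ext
    show g = ((c.iA σ : DD s) : Equiv.Perm (List Lt)) * QQ s u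
    rw [hc]
    exact h
  · rintro σ ⟨u, hu⟩ h
    have h1 : ((c.iA σ : DD s) : Equiv.Perm (List Lt)) * QQ s u = 1 := congrArg Subtype.val h
    rw [hc] at h1
    exact dec_inj_QQ s σ u h1

end Pool.Agent.Y130.NP
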