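import Mathlib
import Pool.Agent.Y130.NP.Uni
import Pool.Agent.Y130.NC.Mn

set_option autoImplicit false

namespace Pool.Agent.Y130.NP

open Pool.Agent.Y130.NC

/-- put a letter in front of a sequence -/
def ic (i : Fin 3) (ω : ℕ → Fin 3) : ℕ → Fin 3 := fun n => Nat.casesOn n i ω

theorem ic_zero (i : Fin 3) (ω : ℕ → Fin 3) : ic i ω 0 = i := rfl

theorem ic_succ (i : Fin 3) (ω : ℕ → Fin 3) (n : ℕ) : ic i ω (n + 1) = ω n := rfl

theorem ic_tail (i : Fin 3) (ω : ℕ → Fin 3) : (fun n => ic i ω (n + 1)) = ω := rfl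

/-- the intersection of the kernels over `X` -/
def NX (X : Set (ℕ → Fin 3)) : Subgroup (FreeGroup (Fin 4)) := ⨅ ω ∈ X, (phi ω).ker

instance (X : Set (ℕ → Fin 3)) : (NX X).Normal :=
  Subgroup.normal_iInf_normal fun _ => Subgroup.normal_iInf_normal fun _ => MonoidHom.normal_ker _

theorem mem_NX {X : Set (ℕ → Fin 3)} {g : FreeGroup (Fin 4)} : g ∈ NX X ↔ ∀ ω ∈ X, phi ω g = 1 := by
  unfold NX
  simp only [Subgroup.mem_iInf, MonoidHom.mem_ker]

/-- the generators acting on pairs of a letter and a word of the free group -/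
def gl (i : Fin 3) : Fin 4 → Equiv.Perm (Bool × FreeGroup (Fin 4)) := fun j =>
  Fin.cases ⟨fun p => (!p.1, p.2), fun p => (!p.1, p.2), fun p => by simp, fun p => by simp⟩
    (fun k => ⟨fun p => (p.1, (if p.1 = true then FreeGroup.of k.succ else if act k i = true then FreeGroup.of 0 else 1) * p.2),
      fun p => (p.1, (if p.1 = true then FreeGroup.of k.succ else if act k i = true then FreeGroup.of 0 else 1)⁻¹ * p.2),
      fun p => Prod.ext rfl (inv_mul_cancel_left _ _), fun p => Prod.ext rfl (mul_inv_cancel_left _ _)⟩) j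

def PH (i : Fin 3) : FreeGroup (Fin 4) →* Equiv.Perm (Bool × FreeGroup (Fin 4)) := FreeGroup.lift (gl i)

theorem PH_zero (i : Fin 3) (p : Bool × FreeGroup (Fin 4)) : PH i (FreeGroup.of 0) p = (!p.1, p.2) := by
  unfold PH
  rw [FreeGroup.lift_apply_of]
  rfl

theorem PH_succ (i k : Fin 3) (p : Bool × FreeGroup (Fin 4)) : PH i (FreeGroup.of k.succ) p =
    (p.1, (if p.1 = true then FreeGroup.of k.succ else if act k i = true then FreeGroup.of 0 else 1) * p.2) := by
  unfold PH
  rw [FreeGroup.lift_apply_of]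
  rfl

/-- right translations commute with the action -/
def RT (σ : Equiv.Perm (Bool × FreeGroup (Fin 4))) : Prop :=
  ∀ x w v, σ (x, w * v) = ((σ (x, w)).1, (σ (x, w)).2 * v)

theorem RT_inv {σ : Equiv.Perm (Bool × FreeGroup (Fin 4))} (h : RT σ) : RT σ⁻¹ := by
  intro x w v
  rw [Equiv.Perm.inv_eq_iff_eq]
  rw [h]
  have h2 : σ ((σ⁻¹ (x, w)).1, (σ⁻¹ (x, w)).2) = (x, w) := by
    rw [Prod.mk.eta]
    exact Equiv.apply_symm_apply σ (x, w)
  rw [h2]

theorem RT_all (i : Fin 3) (g : FreeGroup (Fin 4)) : RT (PH i g) := by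
  induction g using FreeGroup.induction_on with
  | C1 => rw [map_one]; intro x w v; rfl
  | of j =>
    refine Fin.cases ?_ (fun k => ?_) j
    · intro x w v
      rw [PH_zero, PH_zero]
    · intro x w v
      rw [PH_succ, PH_succ]
      simp only [mul_assoc]
  | inv_of j ih => rw [map_inv]; exact RT_inv ih
  | mul x y hx hy =>
    rw [map_mul]
    intro z w v
    rw [Equiv.Perm.mul_apply, Equiv.Perm.mul_apply, hy, hx]

theorem PH_apply (i : Fin 3) (g : FreeGroup (Fin 4)) (x : Bool) (w : FreeGroup (Fin 4)) :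
    PH i g (x, w) = ((PH i g (x, 1)).1, (PH i g (x, 1)).2 * w) := by
  have := RT_all i g x 1 w
  rwa [one_mul] at this

/-- the relation with the action on the words -/
theorem rel (i : Fin 3) (ω : ℕ → Fin 3) (g : FreeGroup (Fin 4)) : ∀ (x : Bool) (v : FreeGroup (Fin 4)) (w : List Bool),
    phi (ic i ω) g (x :: phi ω v w) = (PH i g (x, v)).1 :: phi ω (PH i g (x, v)).2 w := by
  induction g using FreeGroup.induction_on with
  | C1 => intro x v w; rw [map_one, map_one]; rfl
  | of j =>
    intro x v w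
    refine Fin.cases ?_ (fun k => ?_) j
    · rw [PH_zero]
      have h : phi (ic i ω) (FreeGroup.of 0) = aP := by
        unfold phi
        rw [FreeGroup.lift_apply_of]; rfl
      rw [h]
      rfl
    · rw [PH_succ]
      have h : ∀ ω, phi ω (FreeGroup.of k.succ) = genP ω k := by
        intro ω
        unfold phi
        rw [FreeGroup.lift_apply_of]
        fin_cases k <;> rfl
      have h0 : phi ω (FreeGroup.of 0) = aP := by
        unfold phi
        rw [FreeGroup.lift_apply_of]; rfl
      rw [h (ic i ω)]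
      cases x with
      | true =>
        simp only [if_true]
        rw [map_mul, Equiv.Perm.mul_apply, h]
        rfl
      | false =>
        simp only [Bool.false_eq_true, if_false]
        change (false :: if act k (ic i ω 0) = true then aF (phi ω v w) else phi ω v w) = _
        rw [ic_zero]
        by_cases ha : act k i = true
        · rw [if_pos ha, if_pos ha, map_mul, Equiv.Perm.mul_apply, h0]
          rfl
        · rw [if_neg ha, if_neg ha, one_mul]
  | inv_of j ih =>
    intro x v w
    rw [map_inv, map_inv, Equiv.Perm.inv_eq_iff_eq]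
    have h := ih ((PH i (FreeGroup.of j))⁻¹ (x, v)).1 ((PH i (FreeGroup.of j))⁻¹ (x, v)).2 w
    rw [Prod.mk.eta] at h
    have h2 : PH i (FreeGroup.of j) ((PH i (FreeGroup.of j))⁻¹ (x, v)) = (x, v) :=
      Equiv.apply_symm_apply _ (x, v)
    rw [h2] at h
    exact h.symm
  | mul a b ha hb =>
    intro x v w
    rw [map_mul, map_mul, Equiv.Perm.mul_apply, Equiv.Perm.mul_apply, hb, ha]

/-- the stabiliser of the letter `1` -/
def St (i : Fin 3) : Subgroup (FreeGroup (Fin 4)) where
  carrier := {g | (PH i g (true, 1)).1 = true}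
  one_mem' := by
    change (PH i 1 (true, 1)).1 = true
    rw [map_one]; rfl
  mul_mem' := by
    intro a b ha hb
    change (PH i (a * b) (true, 1)).1 = true
    rw [map_mul, Equiv.Perm.mul_apply]
    have hb' : (PH i b (true, 1)).1 = true := hb
    have ha' : (PH i a (true, 1)).1 = true := ha
    have h2 : PH i b (true, 1) = (true, (PH i b (true, 1)).2) := Prod.ext hb' rfl
    rw [h2, PH_apply]
    exact ha'
  inv_mem' := by
    intro a ha
    change (PH i a⁻¹ (true, 1)).1 = true
    have ha' : (PH i a (true, 1)).1 = true := ha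
    have h2 : PH i a (true, (PH i a (true, 1)).2⁻¹) = (true, 1) := by
      rw [PH_apply, ha', mul_inv_cancel]
    have h3 : PH i a⁻¹ (true, 1) = (true, (PH i a (true, 1)).2⁻¹) := by
      rw [map_inv, Equiv.Perm.inv_eq_iff_eq, h2]
    rw [h3]

/-- the section at the letter `1` -/
def sec (i : Fin 3) : St i →* FreeGroup (Fin 4) where
  toFun g := (PH i g.1 (true, 1)).2
  map_one' := by
    change (PH i 1 (true, 1)).2 = 1
    rw [map_one]; rfl
  map_mul' := by
    intro a b
    change (PH i (a.1 * b.1) (true, 1)).2 = (PH i a.1 (true, 1)).2 * (PH i b.1 (true, 1)).2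
    rw [map_mul, Equiv.Perm.mul_apply]
    have hb' : (PH i b.1 (true, 1)).1 = true := b.2
    have h2 : PH i b.1 (true, 1) = (true, (PH i b.1 (true, 1)).2) := Prod.ext hb' rfl
    conv_lhs => rw [h2, PH_apply]

theorem exists_act (i : Fin 3) : ∃ k, act k i = true := by
  revert i; decide

theorem sec_surj (i : Fin 3) : Function.Surjective (sec i) := by
  rw [← MonoidHom.range_eq_top, eq_top_iff, ← FreeGroup.closure_range_of (Fin 4), Subgroup.closure_le]
  have hs : ∀ k : Fin 3, PH i (FreeGroup.of k.succ) (true, 1) = (true, FreeGroup.of k.succ) := by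
    intro k
    rw [PH_succ]
    simp
  rintro _ ⟨j, rfl⟩
  refine Fin.cases ?_ (fun k => ?_) j
  · obtain ⟨k, hk⟩ := exists_act i
    have h : PH i (FreeGroup.of 0 * FreeGroup.of k.succ * FreeGroup.of 0) (true, 1) = (true, FreeGroup.of 0) := by
      rw [map_mul, map_mul, Equiv.Perm.mul_apply, Equiv.Perm.mul_apply, PH_zero, PH_succ, PH_zero]
      simp [hk]
    exact ⟨⟨FreeGroup.of 0 * FreeGroup.of k.succ * FreeGroup.of 0, by
      change (PH i _ (true, 1)).1 = true
      rw [h]⟩, by
      change (PH i _ (true, 1)).2 = _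
      rw [h]⟩
  · exact ⟨⟨FreeGroup.of k.succ, by
      change (PH i _ (true, 1)).1 = true
      rw [hs]⟩, by
      change (PH i _ (true, 1)).2 = _
      rw [hs]⟩

/-- one step: a mean passes from the group of `X` to the group of `{ω | i ω ∈ X}` -/
theorem step (X : Set (ℕ → Fin 3)) (i : Fin 3) (h : HasMn (FreeGroup (Fin 4) ⧸ NX X)) :
    HasMn (FreeGroup (Fin 4) ⧸ NX {ω | ic i ω ∈ X}) := by
  let f : St i →* FreeGroup (Fin 4) ⧸ NX X := (QuotientGroup.mk' (NX X)).comp (St i).subtype
  let g : St i →* FreeGroup (Fin 4) ⧸ NX {ω | ic i ω ∈ X} := (QuotientGroup.mk' _).comp (sec i)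
  refine mn_transfer f g ?_ ?_ h
  · exact (QuotientGroup.mk'_surjective _).comp (sec_surj i)
  · intro x hx
    have hx1 : x.1 ∈ NX X := by
      have : (QuotientGroup.mk (x.1) : FreeGroup (Fin 4) ⧸ NX X) = 1 := hx
      exact (QuotientGroup.eq_one_iff _).1 this
    have hx2 : sec i x ∈ NX {ω | ic i ω ∈ X} := by
      rw [mem_NX]
      intro ω hω
      have h1 : phi (ic i ω) x.1 = 1 := mem_NX.1 hx1 _ hω
      ext1 w
      have h2 := rel i ω x.1 true 1 w
      rw [h1, map_one] at h2
      have h3 : (true :: w) = (PH i x.1 (true, 1)).1 :: phi ω (PH i x.1 (true, 1)).2 w := h2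
      have h4 := (List.cons.inj h3).2
      exact h4.symm
    change (QuotientGroup.mk (sec i x) : FreeGroup (Fin 4) ⧸ NX {ω | ic i ω ∈ X}) = 1
    exact (QuotientGroup.eq_one_iff _).2 hx2

end Pool.Agent.Y130.NP
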