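import Mathlib
import Pool.Agent.Y130.NP.Main
import Pool.Agent.Y130.NP.Step

set_option autoImplicit false

namespace Pool.Agent.Y130.NP

open Pool.Agent.Helper889.Nc Pool.Agent.Y130.NC

variable {p : ℕ} [Pat p]

/-- every admissible pattern from the phase `s` on is approximated by `X` -/
def Good (s : ZMod p) (X : Set (ℕ → Fin 3)) : Prop :=
  ∀ ω : ℕ → Fin 3, (∀ n : ℕ, allowed (s + (n : ZMod p)) (ω n)) → ∀ k : ℕ, ∃ ω' ∈ X, ∀ n < k, ω' n = ω n

theorem ok_allowed (y : List Bool) : ∀ (s : ZMod p) (ω : ℕ → Fin 3) (r : List Lt), lt_ok s ω y r →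
    ∀ n : ℕ, n < y.length → allowed (s + (n : ZMod p)) (ω n) := by
  induction y with
  | nil => intro s ω r _ n hn; simp at hn
  | cons b y ih =>
    intro s ω r h n hn
    cases n with
    | zero => simpa using h.1
    | succ n =>
      have h2 := ih (s + 1) _ r h.2 n (by simpa using hn)
      have e : s + ((n + 1 : ℕ) : ZMod p) = s + 1 + n := by push_cast; ring
      rw [e]
      exact h2

theorem ok_congr (y : List Bool) : ∀ (s : ZMod p) (ω ω' : ℕ → Fin 3) (r : List Lt),
    (∀ n < y.length, ω' n = ω n) → lt_ok s ω y r → lt_ok s ω' y r := by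
  induction y with
  | nil => intro s ω ω' r _ h; exact h
  | cons b y ih =>
    intro s ω ω' r hω h
    have h0 : ω' 0 = ω 0 := hω 0 (by simp)
    refine ⟨?_, ih (s + 1) _ _ r (fun n hn => hω (n + 1) (by simpa using hn)) h.2⟩
    rw [h0]
    exact h.1

theorem enc_congr (y : List Bool) : ∀ (ω ω' : ℕ → Fin 3) (r : List Lt),
    (∀ n < y.length, ω' n = ω n) → lt_enc ω' y r = lt_enc ω y r := by
  induction y with
  | nil => intro ω ω' r _; rfl
  | cons b y ih =>
    intro ω ω' r hω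
    have h0 : ω' 0 = ω 0 := hω 0 (by simp)
    simp only [lt_enc]
    rw [h0, ih _ _ r (fun n hn => hω (n + 1) (by simpa using hn))]

/-- an admissible letter -/
noncomputable def cl (s : ZMod p) : Fin 3 := (Pat.ne s).choose

theorem cl_allowed (s : ZMod p) : allowed s (cl s) := (Pat.ne s).choose_spec

theorem trivialX (s : ZMod p) (X : Set (ℕ → Fin 3)) (hX : Good s X) (g : FreeGroup (Fin 4)) (hg : g ∈ NX X) :
    FreeGroup.lift ![rt s tt, dr s (tt, 1), dr s (1, tt), dr s (tt, tt)] g = 1 := by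
  ext1 w
  obtain ⟨ω, y, r, h1, h2⟩ := lt_exists w s
  obtain ⟨ω', hω', hag⟩ := hX (fun n => if n < y.length then ω n else cl (s + (n : ZMod p))) (by
    intro n
    by_cases hn : n < y.length
    · simp only [hn, if_true]
      exact ok_allowed y s ω r h1 n hn
    · simp only [hn, if_false]
      exact cl_allowed _) y.length
  have hag' : ∀ n < y.length, ω' n = ω n := by
    intro n hn
    rw [hag n hn]
    simp [hn]
  have h1' := ok_congr y s ω ω' r hag' h1
  have h2' : lt_enc ω' y r = w := by rw [enc_congr y ω ω' r hag', h2]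
  have h3 := (lt_R_all s ω' g).1 y r h1'
  have h4 : phi ω' g = 1 := mem_NX.1 hg _ hω'
  rw [h4, h2'] at h3
  rw [h3]
  exact h2'

/-- the homomorphism onto the groups of the family -/
theorem exists_surjX (s : ZMod p) (X : Set (ℕ → Fin 3)) (hX : Good s X) :
    ∃ f : (FreeGroup (Fin 4) ⧸ NX X) →* DD s, Function.Surjective f := by
  let L : FreeGroup (Fin 4) →* Equiv.Perm (List Lt) := FreeGroup.lift ![rt s tt, dr s (tt, 1), dr s (1, tt), dr s (tt, tt)]
  have hmem : ∀ g, L g ∈ DD s := fun g => by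
    rw [← lift_closure s]
    exact ⟨g, rfl⟩
  let L' : FreeGroup (Fin 4) →* DD s := L.codRestrict (DD s) hmem
  have hker : ∀ g ∈ NX X, L' g = 1 := by
    intro g hg
    exact Subtype.ext (trivialX s X hX g hg)
  refine ⟨QuotientGroup.lift (NX X) L' hker, ?_⟩
  rintro ⟨p, hp⟩
  have hp' := hp
  rw [← lift_closure s] at hp'
  obtain ⟨g, hg⟩ := hp'
  exact ⟨QuotientGroup.mk g, Subtype.ext hg⟩

theorem good_step (s : ZMod p) (X : Set (ℕ → Fin 3)) (hX : Good s X) (i : Fin 3) (hi : allowed s i) :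
    Good (s + 1) {ω | ic i ω ∈ X} := by
  intro ω hω k
  obtain ⟨ω', h1, h2⟩ := hX (ic i ω) (by
    intro n
    cases n with
    | zero => simpa [ic_zero] using hi
    | succ n =>
      rw [ic_succ]
      have e : s + ((n + 1 : ℕ) : ZMod p) = s + 1 + n := by push_cast; ring
      rw [e]
      exact hω n) (k + 1)
  refine ⟨fun n => ω' (n + 1), ?_, fun n hn => ?_⟩
  · change ic i (fun n => ω' (n + 1)) ∈ X
    have e : ic i (fun n => ω' (n + 1)) = ω' := by
      funext n
      cases n with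
      | zero => exact (h2 0 (Nat.succ_pos k)).symm
      | succ n => rfl
    rw [e]
    exact h1
  · exact h2 (n + 1) (by omega)

theorem iter (s : ZMod p) (X : Set (ℕ → Fin 3)) (hX : Good s X) (hm : HasMn (FreeGroup (Fin 4) ⧸ NX X)) (n : ℕ) :
    ∃ Y, Good (s + (n : ZMod p)) Y ∧ HasMn (FreeGroup (Fin 4) ⧸ NX Y) := by
  induction n with
  | zero => exact ⟨X, by simpa using hX, hm⟩
  | succ n ih =>
    obtain ⟨Y, h1, h2⟩ := ih
    refine ⟨{ω | ic (cl (s + (n : ZMod p))) ω ∈ Y}, ?_, step Y _ h2⟩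
    have e : s + ((n + 1 : ℕ) : ZMod p) = s + n + 1 := by push_cast; ring
    rw [e]
    exact good_step _ Y h1 _ (cl_allowed _)

theorem mean_DD [NeZero p] (s : ZMod p) (X : Set (ℕ → Fin 3)) (hX : Good s X)
    (hm : HasMn (FreeGroup (Fin 4) ⧸ NX X)) (t : ZMod p) : HasMn (DD t) := by
  obtain ⟨Y, h1, h2⟩ := iter s X hX hm (t - s).val
  rw [ZMod.natCast_val, ZMod.cast_id', id, add_sub_cancel] at h1
  obtain ⟨f, hf⟩ := exists_surjX t Y h1
  exact mn_quot f hf h2

/-- the conditions on the pattern -/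
def Ok (p : ℕ) [NeZero p] [Pat p] : Prop :=
  (∀ v : V, v ≠ 1 → ∃ s : ZMod p, ∀ i : II s, chi0 i.1 v = 1) ∧ 4 ^ p < ∏ s : ZMod p, (2 * Fintype.card (II s))

theorem no_means_DD [NeZero p] (hok : Ok p) (h : ∀ t : ZMod p, HasMn (DD t)) : False := by
  choose m h0 h1 hadd hinv using h
  choose c hc hc' using (exists_gd (p := p))
  choose L hL using fun s => exists_lvl s (c s) (hc s) (hc' s) (c (s + 1)) (hc (s + 1)) (hc' (s + 1))
  refine family_no_means c II L ?_ hok.2 m h0 h1 hadd hinv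
  intro v hv
  obtain ⟨s, hs⟩ := hok.1 v hv
  exact ⟨s, fun i => by rw [hL]; exact hs i⟩

theorem torsion_DD [NeZero p] (hf : ∀ v : V, v ≠ 1 → ∃ s : ZMod p, ∀ i : II s, chi0 i.1 v = 1) (t : ZMod p) (g : DD t) :
    ∃ n, 0 < n ∧ g ^ n = 1 := by
  choose c hc hc' using (exists_gd (p := p))
  choose L hL using fun s => exists_lvl s (c s) (hc s) (hc' s) (c (s + 1)) (hc (s + 1)) (hc' (s + 1))
  refine family_torsion c II L ?_ t g
  intro v hv
  obtain ⟨s, hs⟩ := hf v hv
  exact ⟨s, fun i => by rw [hL]; exact hs i⟩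

theorem no_mean_good [NeZero p] (hok : Ok p) (s : ZMod p) (X : Set (ℕ → Fin 3)) (hX : Good s X) :
    ¬ HasMn (FreeGroup (Fin 4) ⧸ NX X) :=
  fun hm => no_means_DD hok (mean_DD s X hX hm)

/-- put a word in front of a sequence -/
def pre : List (Fin 3) → (ℕ → Fin 3) → ℕ → Fin 3
  | [], ω => ω
  | i :: u, ω => ic i (pre u ω)

theorem no_mean_pre [NeZero p] (hok : Ok p) (s : ZMod p) (u : List (Fin 3)) : ∀ X : Set (ℕ → Fin 3), Good s {ω | pre u ω ∈ X} →
    ¬ HasMn (FreeGroup (Fin 4) ⧸ NX X) := by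
  induction u with
  | nil => intro X h; exact no_mean_good hok s X h
  | cons i u ih =>
    intro X h hm
    exact ih {ω | ic i ω ∈ X} h (step X i hm)

theorem ok_of_allowed (y : List Bool) : ∀ (s : ZMod p) (ω : ℕ → Fin 3), (∀ n : ℕ, allowed (s + (n : ZMod p)) (ω n)) →
    lt_ok s ω y [] := by
  induction y with
  | nil => intro s ω _ x w h; simp at h
  | cons b y ih =>
    intro s ω h
    refine ⟨by simpa using h 0, ih (s + 1) _ (fun n => ?_)⟩
    have e : s + ((n + 1 : ℕ) : ZMod p) = s + 1 + n := by push_cast; ring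
    rw [← e]
    exact h (n + 1)

theorem enc_inj (y : List Bool) : ∀ (y' : List Bool) (ω : ℕ → Fin 3), y'.length = y.length →
    lt_enc ω y [] = lt_enc ω y' [] → y = y' := by
  induction y with
  | nil => intro y' ω h _; exact (List.length_eq_zero_iff.1 (by simpa using h)).symm
  | cons b y ih =>
    intro y' ω hl h
    cases y' with
    | nil => simp at hl
    | cons b' y' =>
      simp only [lt_enc, List.cons.injEq, Prod.mk.injEq] at h
      obtain ⟨⟨-, h1⟩, h2⟩ := h
      have h3 := ih y' _ (by simpa using hl) h2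
      have htt : tt ≠ 1 := by decide
      have h4 : b = b' := by
        cases b <;> cases b' <;> simp_all
      rw [h3, h4]

/-- a word acting trivially on the letters of the pattern is in the kernels over the pattern -/
theorem mem_of_trivial (s : ZMod p) (X : Set (ℕ → Fin 3)) (hX : ∀ ω ∈ X, ∀ n : ℕ, allowed (s + (n : ZMod p)) (ω n))
    (g : FreeGroup (Fin 4)) (hg : FreeGroup.lift ![rt s tt, dr s (tt, 1), dr s (1, tt), dr s (tt, tt)] g = 1) :
    g ∈ NX X := by
  rw [mem_NX]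
  intro ω hω
  ext1 y
  have h := lt_R_all s ω g
  have h1 := h.1 y [] (ok_of_allowed y s ω (hX ω hω))
  rw [hg] at h1
  have h2 := enc_inj y (phi ω g y) ω (h.2 y) h1
  exact h2.symm

theorem torsion_X [NeZero p] (hf : ∀ v : V, v ≠ 1 → ∃ s : ZMod p, ∀ i : II s, chi0 i.1 v = 1) (s : ZMod p)
    (X : Set (ℕ → Fin 3)) (hX : ∀ ω ∈ X, ∀ n : ℕ, allowed (s + (n : ZMod p)) (ω n)) (g : FreeGroup (Fin 4) ⧸ NX X) :
    ∃ n, 0 < n ∧ g ^ n = 1 := by
  obtain ⟨g, rfl⟩ := QuotientGroup.mk_surjective g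
  have hmem : FreeGroup.lift ![rt s tt, dr s (tt, 1), dr s (1, tt), dr s (tt, tt)] g ∈ DD s := by
    rw [← lift_closure s]
    exact ⟨g, rfl⟩
  obtain ⟨n, hn, h⟩ := torsion_DD hf s ⟨_, hmem⟩
  refine ⟨n, hn, ?_⟩
  have h1 : FreeGroup.lift ![rt s tt, dr s (tt, 1), dr s (1, tt), dr s (tt, tt)] (g ^ n) = 1 := by
    rw [map_pow]
    exact congrArg Subtype.val h
  have h2 := mem_of_trivial s X hX _ h1
  have h3 : (QuotientGroup.mk (g ^ n) : FreeGroup (Fin 4) ⧸ NX X) = 1 := (QuotientGroup.eq_one_iff _).2 h2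
  rw [← h3]
  rfl

end Pool.Agent.Y130.NP
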