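import Mathlib
import Pool.Agent.Y130.NP.Pat

set_option autoImplicit false

namespace Pool.Agent.Y130.NP

open Pool.Agent.Helper889.Nc Pool.Agent.Y130.NC

theorem prod_zmod (p : ℕ) [NeZero p] (f : ℕ → ℕ) : ∏ s : ZMod p, f s.val = ∏ n ∈ Finset.range p, f n := by
  cases p with
  | zero => exact absurd rfl (NeZero.ne 0)
  | succ k =>
    rw [Finset.prod_range]
    rfl

theorem per_mod (p : ℕ) (I : ℕ → Finset (Fin 3)) (hper : ∀ n, I (n + p) = I n) (n : ℕ) : I (n % p) = I n := by
  have h : ∀ k m, I (m + p * k) = I m := by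
    intro k
    induction k with
    | zero => intro m; rfl
    | succ k ih =>
      intro m
      rw [Nat.mul_succ, ← add_assoc, hper, ih]
  conv_rhs => rw [← Nat.mod_add_div n p]
  rw [h]

theorem exists_chi (v : V) (hv : v ≠ 1) : ∃ i : Fin 3, chi0 i v = 1 := by
  revert v; decide

theorem pre_tail (u : List (Fin 3)) : ∀ x ω : ℕ → Fin 3, (∀ n < u.length, x n = pre u ω n) →
    pre u (fun n => x (n + u.length)) = x := by
  induction u with
  | nil => intro x ω _; rfl
  | cons i u ih =>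
    intro x ω h
    have h0 : x 0 = i := h 0 (by simp)
    have h1 := ih (fun n => x (n + 1)) ω (fun n hn => h (n + 1) (by simpa using hn))
    funext n
    cases n with
    | zero => exact h0.symm
    | succ n =>
      have h2 := congrFun h1 n
      exact h2

theorem pre_add (u : List (Fin 3)) : ∀ (ω : ℕ → Fin 3) (n : ℕ), pre u ω (n + u.length) = ω n := by
  induction u with
  | nil => intro ω n; rfl
  | cons i u ih =>
    intro ω n
    exact ih ω n

theorem pre_eq (u : List (Fin 3)) : ∀ (ω : ℕ → Fin 3) (n : ℕ), pre u ω n = u.getD n (ω (n - u.length)) := by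
  induction u with
  | nil => intro ω n; simp [pre]
  | cons i u ih =>
    intro ω n
    cases n with
    | zero => simp [pre, ic_zero]
    | succ n =>
      have h := ih ω n
      simp only [pre, ic_succ, h, List.getD_cons_succ, List.length_cons, Nat.add_sub_add_right]

theorem close {X : Set (ℕ → Fin 3)} {x : ℕ → Fin 3} (hx : x ∈ closure X) (k : ℕ) : ∃ y ∈ X, ∀ n < k, y n = x n := by
  rw [mem_closure_iff] at hx
  have ho : IsOpen (Set.pi (Finset.range k : Set ℕ) (fun n => ({x n} : Set (Fin 3)))) :=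
    isOpen_set_pi (Finset.finite_toSet _) (fun _ _ => isOpen_discrete _)
  obtain ⟨y, hy1, hy2⟩ := hx _ ho (fun n _ => rfl)
  exact ⟨y, hy2, fun n hn => hy1 n (by simpa using hn)⟩

/-- the pattern given by a periodic sequence -/
@[reducible] def mkPat (p : ℕ) (I : ℕ → Finset (Fin 3)) (h : ∀ n, (I n).Nonempty) : Pat p := ⟨fun s => I s.val, fun _ => h _⟩

theorem ne_of_card (p : ℕ) (I : ℕ → Finset (Fin 3)) (hper : ∀ n, I (n + p) = I n)
    (hcard : 2 ^ p < ∏ n ∈ Finset.range p, (I n).card) : p ≠ 0 ∧ ∀ n, (I n).Nonempty := by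
  have hp : p ≠ 0 := by
    rintro rfl
    simp at hcard
  refine ⟨hp, fun n => ?_⟩
  rw [← per_mod p I hper n]
  by_contra h
  rw [Finset.not_nonempty_iff_eq_empty] at h
  have : ∏ n ∈ Finset.range p, (I n).card = 0 :=
    Finset.prod_eq_zero (Finset.mem_range.2 (Nat.mod_lt n (Nat.pos_of_ne_zero hp))) (by rw [h]; rfl)
  have h2 : 0 < 2 ^ p := by positivity
  omega

/-- the groups of the subsets with a dense product pattern with forced letters -/
theorem main1 (p : ℕ) (I : ℕ → Finset (Fin 3)) (hper : ∀ n, I (n + p) = I n)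
    (hcard : 2 ^ p < ∏ n ∈ Finset.range p, (I n).card) (hforce : ∀ j : Fin 3, ∃ n, I n = {j}) :
    (∀ (X : Set (ℕ → Fin 3)) (u : List (Fin 3)), (∀ ω : ℕ → Fin 3, (∀ n, ω n ∈ I n) → pre u ω ∈ closure X) →
      ¬ HasMn (FreeGroup (Fin 4) ⧸ NX X)) ∧
    ∀ X : Set (ℕ → Fin 3), (∀ ω ∈ X, ∀ n, ω n ∈ I n) → ∀ g : FreeGroup (Fin 4) ⧸ NX X, ∃ n, 0 < n ∧ g ^ n = 1 := by
  obtain ⟨hp, hne⟩ := ne_of_card p I hper hcard
  haveI : NeZero p := ⟨hp⟩
  letI : Pat p := mkPat p I hne
  have hal : ∀ (s : ZMod p) (i : Fin 3), allowed s i ↔ i ∈ I s.val := fun _ _ => Iff.rfl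
  have hf : ∀ v : V, v ≠ 1 → ∃ s : ZMod p, ∀ i : II s, chi0 i.1 v = 1 := by
    intro v hv
    obtain ⟨j, hj⟩ := exists_chi v hv
    obtain ⟨n, hn⟩ := hforce j
    refine ⟨(n : ZMod p), fun i => ?_⟩
    have h1 : i.1 ∈ I ((n : ZMod p).val) := i.2
    rw [ZMod.val_natCast, per_mod p I hper, hn, Finset.mem_singleton] at h1
    rw [h1, hj]
  have hcd : ∀ s : ZMod p, Fintype.card (II s) = (I s.val).card := fun s =>
    Fintype.card_of_subtype (p := allowed s) (I s.val) (fun _ => Iff.rfl)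
  have hok : Ok p := by
    refine ⟨hf, ?_⟩
    have h1 : ∏ s : ZMod p, (2 * Fintype.card (II s)) = ∏ s : ZMod p, (fun n => 2 * (I n).card) s.val :=
      Finset.prod_congr rfl fun s _ => by rw [hcd]
    rw [h1, prod_zmod p (fun n => 2 * (I n).card), Finset.prod_mul_distrib, Finset.prod_const, Finset.card_range]
    have h4 : (4 : ℕ) ^ p = 2 ^ p * 2 ^ p := by rw [← mul_pow]; norm_num
    rw [h4]
    exact Nat.mul_lt_mul_of_pos_left hcard (by positivity)
  have hmem : ∀ ω : ℕ → Fin 3, (∀ n : ℕ, allowed ((0 : ZMod p) + (n : ZMod p)) (ω n)) ↔ ∀ n, ω n ∈ I n := by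
    intro ω
    refine forall_congr' fun n => ?_
    rw [hal, zero_add, ZMod.val_natCast, per_mod p I hper]
  constructor
  · intro X u hX
    refine no_mean_pre hok 0 u X ?_
    intro ω hω k
    have h1 := hX ω ((hmem ω).1 hω)
    obtain ⟨y, hy, hag⟩ := close h1 (u.length + k)
    refine ⟨fun n => y (n + u.length), ?_, fun n hn => ?_⟩
    · change pre u (fun n => y (n + u.length)) ∈ X
      rw [pre_tail u y ω (fun n hn => hag n (by omega))]
      exact hy
    · change y (n + u.length) = ω n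
      rw [hag (n + u.length) (by omega), pre_add]
  · intro X hX g
    exact torsion_X hf 0 X (fun ω hω => (hmem ω).2 (hX ω hω)) g

theorem prod_per (p : ℕ) (f : ℕ → ℕ) (hf : ∀ n, f (n + p) = f n) (m : ℕ) :
    ∏ n ∈ Finset.range (p * m), f n = (∏ n ∈ Finset.range p, f n) ^ m := by
  have hk : ∀ k n, f (p * k + n) = f n := by
    intro k
    induction k with
    | zero => intro n; rw [Nat.mul_zero, Nat.zero_add]
    | succ k ih =>
      intro n
      rw [Nat.mul_succ, show p * k + p + n = p * k + n + p by ring, hf, ih]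
  induction m with
  | zero => simp
  | succ m ih =>
    rw [Nat.mul_succ, Finset.prod_range_add, ih, pow_succ]
    congr 1
    exact Finset.prod_congr rfl fun n _ => hk m n

theorem exists_pow (a b : ℕ) (ha : 0 < a) (h : a < b) : ∃ m, 3 ≤ m ∧ 27 * a ^ m < b ^ m := by
  refine ⟨27 * a + 3, by omega, ?_⟩
  have ha' : (0 : ℝ) < a := by exact_mod_cast ha
  have h1 : (1 : ℝ) + 1 / a ≤ b / a := by
    rw [le_div_iff₀ ha', add_mul, one_div, inv_mul_cancel₀ ha'.ne', one_mul]
    exact_mod_cast h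
  have h2 : (1 : ℝ) + ((27 * a + 3 : ℕ) : ℝ) * (1 / a) ≤ (1 + 1 / a) ^ (27 * a + 3) := by
    apply one_add_mul_le_pow
    have : (0 : ℝ) ≤ 1 / a := by positivity
    linarith
  have h3 : (27 : ℝ) < 1 + ((27 * a + 3 : ℕ) : ℝ) * (1 / a) := by
    push_cast
    have : (27 * (a : ℝ) + 3) * (1 / a) = 27 + 3 / a := by field_simp
    rw [this]
    have : (0 : ℝ) < 3 / a := by positivity
    linarith
  have h4 : ((1 : ℝ) + 1 / a) ^ (27 * a + 3) ≤ (b / a) ^ (27 * a + 3) :=
    pow_le_pow_left₀ (by positivity) h1 _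
  have h5 : (27 : ℝ) < (b / a) ^ (27 * a + 3) := lt_of_lt_of_le (lt_of_lt_of_le h3 h2) h4
  rw [div_pow, lt_div_iff₀ (by positivity)] at h5
  exact_mod_cast h5

/-- the groups of the subsets with a dense product pattern -/
theorem main2 (p : ℕ) (I : ℕ → Finset (Fin 3)) (hper : ∀ n, I (n + p) = I n)
    (hcard : 2 ^ p < ∏ n ∈ Finset.range p, (I n).card) (X : Set (ℕ → Fin 3)) (u : List (Fin 3))
    (hX : ∀ ω : ℕ → Fin 3, (∀ n, ω n ∈ I n) → pre u ω ∈ closure X) : ¬ HasMn (FreeGroup (Fin 4) ⧸ NX X) := by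
  obtain ⟨hp, hne⟩ := ne_of_card p I hper hcard
  obtain ⟨n0, hn0, hI0⟩ : ∃ n0 < p, I n0 = Finset.univ := by
    by_contra hcon
    push Not at hcon
    have h1 : ∏ n ∈ Finset.range p, (I n).card ≤ ∏ n ∈ Finset.range p, 2 := by
      refine Finset.prod_le_prod (fun _ _ => Nat.zero_le _) fun n hn => ?_
      have h2 := hcon n (Finset.mem_range.1 hn)
      have h3 : (I n).card < Fintype.card (Fin 3) := (Finset.card_lt_iff_ne_univ _).2 h2
      rw [Fintype.card_fin] at h3
      omega
    rw [Finset.prod_const, Finset.card_range] at h1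
    omega
  obtain ⟨m, hm3, hm⟩ := exists_pow (2 ^ p) _ (by positivity) hcard
  have hPp : 3 * p ≤ p * m := by
    rw [mul_comm]
    exact Nat.mul_le_mul_left p hm3
  have hperP : ∀ n, I (n + p * m) = I n := by
    intro n
    rw [← per_mod p I hper (n + p * m), Nat.add_mul_mod_self_left, per_mod p I hper]
  let J : ℕ → Finset (Fin 3) := fun n => if n % (p * m) = n0 then {0} else if n % (p * m) = n0 + p then {1}
    else if n % (p * m) = n0 + 2 * p then {2} else I n
  have hI1 : I (n0 + p) = Finset.univ := by rw [hper, hI0]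
  have hI2 : I (n0 + 2 * p) = Finset.univ := by rw [show n0 + 2 * p = n0 + p + p by ring, hper, hI1]
  have hJI : ∀ n, J n ⊆ I n := by
    intro n
    have h1 := per_mod (p * m) I hperP n
    simp only [J]
    split_ifs with h2 h3 h4
    · rw [← h1, h2, hI0]; exact Finset.subset_univ _
    · rw [← h1, h3, hI1]; exact Finset.subset_univ _
    · rw [← h1, h4, hI2]; exact Finset.subset_univ _
    · exact Finset.Subset.refl _
  have hJper : ∀ n, J (n + p * m) = J n := by
    intro n
    simp only [J, Nat.add_mod_right, hperP]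
  have hJ0 : J n0 = {0} := by
    simp only [J]
    rw [Nat.mod_eq_of_lt (by omega), if_pos rfl]
  have hJ1 : J (n0 + p) = {1} := by
    simp only [J]
    rw [Nat.mod_eq_of_lt (by omega), if_neg (by omega), if_pos rfl]
  have hJ2 : J (n0 + 2 * p) = {2} := by
    simp only [J]
    rw [Nat.mod_eq_of_lt (by omega), if_neg (by omega), if_neg (by omega), if_pos rfl]
  have hle : ∀ n ∈ Finset.range (p * m), (I n).card ≤ (J n).card *
      ((if n = n0 then 3 else 1) * (if n = n0 + p then 3 else 1) * (if n = n0 + 2 * p then 3 else 1)) := by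
    intro n hn
    have hn' : n % (p * m) = n := Nat.mod_eq_of_lt (Finset.mem_range.1 hn)
    have h3 : (I n).card ≤ 3 := by
      have := Finset.card_le_univ (I n)
      rwa [Fintype.card_fin] at this
    by_cases e0 : n = n0
    · rw [e0, hJ0, if_pos rfl, if_neg (by omega), if_neg (by omega)]
      rw [e0] at h3
      simpa using h3
    by_cases e1 : n = n0 + p
    · rw [e1, hJ1, if_neg (by omega), if_pos rfl, if_neg (by omega)]
      rw [e1] at h3
      simpa using h3
    by_cases e2 : n = n0 + 2 * p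
    · rw [e2, hJ2, if_neg (by omega), if_neg (by omega), if_pos rfl]
      rw [e2] at h3
      simpa using h3
    · have : J n = I n := by
        simp only [J, hn']
        rw [if_neg e0, if_neg e1, if_neg e2]
      rw [this, if_neg e0, if_neg e1, if_neg e2]
      simp
  have hprod : (∏ n ∈ Finset.range p, (I n).card) ^ m ≤ (∏ n ∈ Finset.range (p * m), (J n).card) * 27 := by
    rw [← prod_per p (fun n => (I n).card) (fun n => by rw [hper]) m]
    refine le_trans (Finset.prod_le_prod (fun _ _ => Nat.zero_le _) hle) ?_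
    rw [Finset.prod_mul_distrib, Finset.prod_mul_distrib, Finset.prod_mul_distrib, Finset.prod_ite_eq',
      Finset.prod_ite_eq', Finset.prod_ite_eq', if_pos (Finset.mem_range.2 (by omega)),
      if_pos (Finset.mem_range.2 (by omega)), if_pos (Finset.mem_range.2 (by omega))]
    exact le_of_eq (by norm_num)
  have hJcard : 2 ^ (p * m) < ∏ n ∈ Finset.range (p * m), (J n).card := by
    rw [pow_mul]
    omega
  refine (main1 (p * m) J hJper hJcard ?_).1 X u (fun ω hω => hX ω (fun n => hJI n (hω n)))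
  intro j
  fin_cases j
  · exact ⟨n0, hJ0⟩
  · exact ⟨n0 + p, hJ1⟩
  · exact ⟨n0 + 2 * p, hJ2⟩

/-- the pattern with the forced letters `0, 1, 2`, six free letters and `l` letters from `{0, 1}` -/
def pat (l : ℕ) (n : ℕ) : Finset (Fin 3) :=
  if n % (9 + l) = 0 then {0} else if n % (9 + l) = 1 then {1} else if n % (9 + l) = 2 then {2}
    else if n % (9 + l) < 9 then Finset.univ else {0, 1}

theorem pat_per (l n : ℕ) : pat l (n + (9 + l)) = pat l n := by
  simp only [pat, Nat.add_mod_right]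

theorem pat_prod (l : ℕ) : ∏ n ∈ Finset.range (9 + l), (pat l n).card = 729 * 2 ^ l := by
  rw [Finset.prod_range_add]
  have h1 : ∏ n ∈ Finset.range 9, (pat l n).card = 729 := by
    have h : ∀ n < 9, n % (9 + l) = n := fun n hn => Nat.mod_eq_of_lt (by omega)
    rw [Finset.prod_range_succ, Finset.prod_range_succ, Finset.prod_range_succ, Finset.prod_range_succ,
      Finset.prod_range_succ, Finset.prod_range_succ, Finset.prod_range_succ, Finset.prod_range_succ,
      Finset.prod_range_one]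
    unfold pat
    rw [h 0 (by norm_num), h 1 (by norm_num), h 2 (by norm_num), h 3 (by norm_num), h 4 (by norm_num),
      h 5 (by norm_num), h 6 (by norm_num), h 7 (by norm_num), h 8 (by norm_num)]
    decide
  have h2 : ∏ n ∈ Finset.range l, (pat l (9 + n)).card = 2 ^ l := by
    have h3 : ∀ n ∈ Finset.range l, (pat l (9 + n)).card = 2 := by
      intro n hn
      have hn' := Finset.mem_range.1 hn
      unfold pat
      rw [Nat.mod_eq_of_lt (by omega), if_neg (by omega), if_neg (by omega), if_neg (by omega), if_neg (by omega)]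
      rfl
    rw [Finset.prod_congr rfl h3, Finset.prod_const, Finset.card_range]
  rw [h1, h2]

theorem pat_card (l : ℕ) : 2 ^ (9 + l) < ∏ n ∈ Finset.range (9 + l), (pat l n).card := by
  rw [pat_prod, pow_add]
  have : 0 < 2 ^ l := by positivity
  nlinarith

theorem pat_force (l : ℕ) (j : Fin 3) : ∃ n, pat l n = {j} := by
  have h : ∀ n < 9, n % (9 + l) = n := fun n hn => Nat.mod_eq_of_lt (by omega)
  fin_cases j
  · exact ⟨0, by unfold pat; rw [h 0 (by norm_num)]; rfl⟩
  · exact ⟨1, by unfold pat; rw [h 1 (by norm_num)]; rfl⟩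
  · exact ⟨2, by unfold pat; rw [h 2 (by norm_num)]; rfl⟩

theorem exists_l (r : ℝ) (hr : 2 < r) : ∃ l : ℕ, (729 * 2 ^ l : ℝ) ≤ r ^ (9 + l) := by
  obtain ⟨l, hl⟩ := exists_nat_gt (1 / (r / 2 - 1))
  refine ⟨l, ?_⟩
  have h0 : 0 < r / 2 - 1 := by linarith
  have h1 : 1 < (l : ℝ) * (r / 2 - 1) := by
    rwa [div_lt_iff₀ h0] at hl
  have h2 : (1 : ℝ) + ((9 + l : ℕ) : ℝ) * (r / 2 - 1) ≤ (1 + (r / 2 - 1)) ^ (9 + l) :=
    one_add_mul_le_pow (by linarith) _
  have h3 : (2 : ℝ) ≤ (1 + (r / 2 - 1)) ^ (9 + l) := by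
    refine le_trans ?_ h2
    push_cast
    nlinarith
  have h4 : (1 + (r / 2 - 1)) ^ (9 + l) = r ^ (9 + l) / 2 ^ (9 + l) := by
    rw [← div_pow]; congr 1; ring
  rw [h4, le_div_iff₀ (by positivity)] at h3
  refine le_trans ?_ h3
  rw [pow_add]
  have : (0 : ℝ) < 2 ^ l := by positivity
  nlinarith

theorem growth (p : ℕ) (hp : p ≠ 0) (f : ℕ → ℕ) (hf : ∀ n, f (n + p) = f n) (h3 : ∀ n, f n ≤ 3) (r : ℝ) (hr : 1 ≤ r)
    (hQ : ((∏ n ∈ Finset.range p, f n : ℕ) : ℝ) ≤ r ^ p) (n : ℕ) :
    ((∏ i ∈ Finset.range n, f i : ℕ) : ℝ) ≤ 3 ^ p * r ^ n := by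
  have e : n = p * (n / p) + n % p := (Nat.div_add_mod n p).symm
  have h1 : ∏ i ∈ Finset.range n, f i = (∏ n ∈ Finset.range p, f n) ^ (n / p) *
      ∏ i ∈ Finset.range (n % p), f (p * (n / p) + i) := by
    conv_lhs => rw [e]
    rw [Finset.prod_range_add, prod_per p f hf]
  have h2 : ∏ i ∈ Finset.range (n % p), f (p * (n / p) + i) ≤ 3 ^ p := by
    refine le_trans (Finset.prod_le_prod (fun _ _ => Nat.zero_le _) (fun i _ => h3 _)) ?_
    rw [Finset.prod_const, Finset.card_range]
    exact Nat.pow_le_pow_right (by norm_num) (Nat.mod_lt n (Nat.pos_of_ne_zero hp)).le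
  rw [h1]
  push_cast
  have h4 : ((∏ n ∈ Finset.range p, (f n : ℝ))) ^ (n / p) ≤ r ^ n := by
    have h5 : ((∏ n ∈ Finset.range p, (f n : ℝ))) ≤ r ^ p := by
      push_cast at hQ; exact hQ
    refine le_trans (pow_le_pow_left₀ (Finset.prod_nonneg fun _ _ => Nat.cast_nonneg _) h5 _) ?_
    rw [← pow_mul]
    exact pow_le_pow_right₀ hr (Nat.mul_div_le n p)
  have h6 : (∏ i ∈ Finset.range (n % p), (f (p * (n / p) + i) : ℝ)) ≤ 3 ^ p := by
    exact_mod_cast h2
  calc (∏ n ∈ Finset.range p, (f n : ℝ)) ^ (n / p) * ∏ i ∈ Finset.range (n % p), (f (p * (n / p) + i) : ℝ)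
      ≤ r ^ n * 3 ^ p := mul_le_mul h4 h6 (Finset.prod_nonneg fun _ _ => Nat.cast_nonneg _) (by positivity)
    _ = 3 ^ p * r ^ n := mul_comm _ _

theorem begs (I : ℕ → Finset (Fin 3)) (X : Set (ℕ → Fin 3)) (hX : ∀ ω ∈ X, ∀ n, ω n ∈ I n) (n : ℕ) :
    Set.ncard {w : Fin n → Fin 3 | ∃ ω ∈ X, ∀ i : Fin n, ω i = w i} ≤ ∏ i ∈ Finset.range n, (I i).card := by
  have h : {w : Fin n → Fin 3 | ∃ ω ∈ X, ∀ i : Fin n, ω i = w i} ⊆ (Fintype.piFinset (fun i : Fin n => I i) : Set (Fin n → Fin 3)) := by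
    rintro w ⟨ω, hω, hw⟩
    rw [Finset.mem_coe, Fintype.mem_piFinset]
    intro i
    rw [← hw i]
    exact hX ω hω i
  refine le_trans (Set.ncard_le_ncard h (Finset.finite_toSet _)) ?_
  rw [Set.ncard_coe_finset, Fintype.card_piFinset, Finset.prod_range]

theorem ofFn_getD (x : ℕ → Fin 3) (k n : ℕ) (d : Fin 3) (hn : n < k) :
    (List.ofFn (fun i : Fin k => x i)).getD n d = x n := by
  rw [List.getD_eq_getElem _ _ (by simpa using hn), List.getElem_ofFn]

/-- a countable dense subset of the set of a pattern -/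
theorem exists_dense (I : ℕ → Finset (Fin 3)) (hI : ∀ n, (I n).Nonempty) : ∃ X : Set (ℕ → Fin 3), X.Countable ∧
    (∀ ω ∈ X, ∀ n, ω n ∈ I n) ∧ ∀ ω : ℕ → Fin 3, (∀ n, ω n ∈ I n) → ω ∈ closure X := by
  choose c hc using hI
  let f : List (Fin 3) → ℕ → Fin 3 := fun l n => if l.getD n (c n) ∈ I n then l.getD n (c n) else c n
  refine ⟨Set.range f, Set.countable_range f, ?_, ?_⟩
  · rintro _ ⟨l, rfl⟩ n
    simp only [f]
    split_ifs with h
    · exact h
    · exact hc n
  · intro ω hω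
    rw [mem_closure_iff]
    intro U hU hωU
    rw [isOpen_pi_iff] at hU
    obtain ⟨S, v, hv, hS⟩ := hU ω hωU
    let k := S.sup id + 1
    let l : List (Fin 3) := List.ofFn (fun i : Fin k => ω i)
    have hl : ∀ n < k, f l n = ω n := by
      intro n hn
      have h1 : l.getD n (c n) = ω n := ofFn_getD ω k n _ hn
      simp only [f, h1, if_pos (hω n)]
    refine ⟨f l, hS ?_, l, rfl⟩
    intro n hn
    have hn' : n < k := Nat.lt_succ_of_le (Finset.le_sup (f := id) hn)
    rw [hl n hn']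
    exact (hv n hn).2

theorem interior_cyl {X : Set (ℕ → Fin 3)} (h : (interior (closure X)).Nonempty) : ∃ u : List (Fin 3),
    ∀ ω : ℕ → Fin 3, pre u ω ∈ closure X := by
  obtain ⟨x, hx⟩ := h
  obtain ⟨S, v, hv, hS⟩ := isOpen_pi_iff.1 isOpen_interior x hx
  let k := S.sup id + 1
  let l : List (Fin 3) := List.ofFn (fun i : Fin k => x i)
  refine ⟨l, fun ω => interior_subset (hS ?_)⟩
  intro n hn
  have hn' : n < k := Nat.lt_succ_of_le (Finset.le_sup (f := id) hn)
  have h1 : pre l ω n = x n := by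
    rw [pre_eq]
    exact ofFn_getD x k n _ hn'
  rw [h1]
  exact (hv n hn).2

end Pool.Agent.Y130.NP
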